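import Pool.Agent.H60.LM.Exp

/-!
# Asymptotic formulas for the moments of local means of zeta on the critical line

Let `1 ≤ k < 4` be real, for instance `k = 1` or `k = 3`. For a `C¹` weight `f` on `[a, b]`, `0 ≤ a < b`, put
`M_h(t) = ∫_a^b f(u) ζ(1/2 + i(t + hu)) du`, a mean of zeta over a window of length `(b - a) h` of the critical line
itself. We prove, without any hypothesis:

(1) if `f` does not vanish identically on `[a, b]`, then

`(1/T) ∫_0^T |M_h(t)|^k dt = (C + o(1)) h^(-k²/4)`  as `h → 0`, `h log T → ∞`,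

uniformly: for every `ε > 0` there is `c` such that the error is at most `ε` for all `c / log T ≤ h ≤ 1 / c` and large `T`,
that is, already for windows which contain a bounded number of zeros on the average. The constant has the structure of
the moment conjecture, `C = a(k/2) G > 0`, where `a(k/2)` is the arithmetic factor of the conjecture and `G` depends on
`k, f, a, b` only and is given by Gaussian integrals (moments of the integral of `f` against the exponential of a complex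
Gaussian field with logarithmic correlations), without primes;

(2) if `∫ f ≠ 0`, then for ALL windows `0 < h ≤ h₀` and large `T` the mean of `|M_h|^k` is between two constant multiples of
`min(1/h, log T)^(k²/4)`;

(3) the asymptotic formula with the constant `a(k/2) G` holds for all continuous homogeneous functions of degree `k` of
several such means.

Proof. The means `N_k(x)` of `|ζ(1/2 + x + it)|^k` over `[0, T]` are `O(x^(-k²/4))` for `0 < x ≤ x₀` (library: upper
bounds of the right order on the line and near the line; in between a Poisson type inequality on rectangles). By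
Cauchy's theorem and partial integration the difference between `M_h` on the line and on the line `1/2 + εh` is bounded
by horizontal integrals of length `εh` divided by `h`; as `k < 4` the singularity `x^(-k/4)` is integrable and Jensen's
inequality bounds its `k`-th mean by `C ε^(k - k²/4) h^(-k²/4)`. On the line `1/2 + εh` the mean `M_h` is replaced by a
Riemann sum, with an error controlled by the `k`-th moment of `ζ'`, and the moments of Riemann sums are known by the
limit theorem for homogeneous functions of shifted values near the line (library). Positivity if `∫ f ≠ 0`: by the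
Poisson type inequality the moment of `M_h` on the critical line is at least a constant times that on the line
`1/2 + δ`, `δ ≥ Lh`, and for large `L` there `M_h` is close to `ζ(1/2 + δ + it) ∫ f`. In general let `F` be the primitive
of `f` with `F(a) = 0`; if `∫ f = 0`, then `M_h` for `F` on the line differs from that on the line `1/2 + Xh` by the
horizontal integral of `M_h` for `f`, divided by `h`; so a lower bound for `F` gives a lower bound for `f`; and one of
the iterated primitives has a nonzero integral.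
-/

set_option autoImplicit false

open Complex MeasureTheory Filter Topology ProbabilityTheory

namespace Pool.Agent.Results.MP_91b7ff_nt.LocalMeans

/-- the local mean `∫_a^b f(u) ζ(1/2 + i(t + hu)) du` -/
noncomputable def localMean (f : ℝ → ℂ) (a b h t : ℝ) : ℂ :=
  ∫ u in a..b, f u * riemannZeta (1 / 2 + ((t + h * u : ℝ) : ℂ) * I)

/-- `Q T h → C` as `h → 0`, `h log T → ∞`, uniformly: for every `ε > 0` there is `c > 0` such that for all large `T`
and all `c / log T ≤ h ≤ 1 / c` the distance between `Q T h` and `C` is at most `ε`. -/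
def UniformLimit (Q : ℝ → ℝ → ℝ) (C : ℝ) : Prop :=
  ∀ ε : ℝ, 0 < ε → ∃ c T₀ : ℝ, 0 < c ∧ ∀ T : ℝ, T₀ ≤ T → ∀ h : ℝ, c / Real.log T ≤ h → h ≤ 1 / c → |Q T h - C| ≤ ε

/-- the arithmetic factor of the moment conjecture,
`a(κ) = ∏_p (1 - 1/p)^(κ²) ∑_m (κ (κ + 1) ⋯ (κ + m - 1) / m!)² p^(-m)` -/
noncomputable def arithmeticFactor (κ : ℝ) : ℝ :=
  ∏' p : Nat.Primes, ((1 - 1 / (p : ℝ)) ^ (κ ^ 2) *
    ∑' m : ℕ, (∏ i ∈ Finset.range m, (κ + i) / ((i : ℝ) + 1)) ^ 2 * (1 / (p : ℝ)) ^ m)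

/-- `L(x) = log (1 + i x / 2)` -/
noncomputable def L (x : ℝ) : ℂ := Complex.log (1 + I * (x : ℂ) / 2)

/-- `ρ` is the law of complex random variables `Y_q`, `q ∈ ι`, which are jointly normal with means `-(k/2) L(x_q)`, with
`E (Y_q - E Y_q) conj (Y_r - E Y_r) = L(x_q) + L(-x_r) - L(x_q - x_r)` and `E (Y_q - E Y_q) (Y_r - E Y_r) = 0`: all real
linear combinations `Re ∑ conj(c_q) Y_q` are normal with the corresponding mean and variance. -/
def IsNormalLaw (k : ℝ) {ι : Type} [Fintype ι] (x : ι → ℝ) (ρ : Measure (ι → ℂ)) : Prop :=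
  ∀ c : ι → ℂ, 0 ≤ (∑ q, ∑ r, (starRingEnd ℂ) (c q) * c r * (L (x q) + L (-x r) - L (x q - x r))).re ∧
    ρ.map (fun y => (∑ q, (starRingEnd ℂ) (c q) * y q).re) =
      gaussianReal (∑ q, (starRingEnd ℂ) (c q) * (-(k / 2 : ℂ) * L (x q))).re
        ((∑ q, ∑ r, (starRingEnd ℂ) (c q) * c r * (L (x q) + L (-x r) - L (x q - x r))).re / 2).toNNReal

/-- the left end of the `i`-th of `n` equal parts of `[a, b]` -/
noncomputable def node (a b : ℝ) (n i : ℕ) : ℝ := a + (b - a) * (i / n)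

/-- `S_j(y) = ∑_{i < n} w_{ji} exp(y_{ji})`, `w_{ji}` the integral of `f_j` over the `i`-th of `n` equal parts of
`[a_j, b_j]` -/
noncomputable def expSum {m : ℕ} (f : Fin m → ℝ → ℂ) (a b : Fin m → ℝ) (n : ℕ) (y : Fin m × Fin n → ℂ) (j : Fin m) : ℂ :=
  ∑ i : Fin n, (∫ u in (node (a j) (b j) n i)..(node (a j) (b j) n (i + 1)), f j u) * Complex.exp (y (j, i))

/-- `G` is the limit for `n → ∞` of `(2 ε)^(-k²/4) E Φ(S_1(Y), …, S_m(Y))`, `ε = n^(-1/4)`, where `Y_{ji}`, `i < n`, are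
jointly normal as above with the parameters `x_{ji} = node / ε` -/
def GaussianFactor (k : ℝ) {m : ℕ} (f : Fin m → ℝ → ℂ) (a b : Fin m → ℝ) (Φ : (Fin m → ℂ) → ℝ) (G : ℝ) : Prop :=
  ∃ ρ : (n : ℕ) → Measure (Fin m × Fin n → ℂ),
    (∀ n : ℕ, 0 < n → IsNormalLaw k (fun q => node (a q.1) (b q.1) n q.2 / (n : ℝ) ^ (-(1 / 4 : ℝ))) (ρ n) ∧
      Integrable (fun y => Φ (expSum f a b n y)) (ρ n)) ∧
    Tendsto (fun n : ℕ => (2 * (n : ℝ) ^ (-(1 / 4 : ℝ))) ^ (-(k ^ 2 / 4)) * ∫ y, Φ (expSum f a b n y) ∂(ρ n)) atTop (𝓝 G)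

lemma localMean_eq (f : ℝ → ℂ) (a b h t : ℝ) : localMean f a b h t = Pool.Agent.H60.LM.lm f a b h 0 t := by
  unfold localMean Pool.Agent.H60.LM.lm Pool.Agent.H60.LM.zx
  refine intervalIntegral.integral_congr fun u _ => ?_
  rw [H370.mk_eq]
  norm_num

lemma factor_eq (κ : ℝ) : arithmeticFactor κ = Pool.Agent.H306R2.aF κ := rfl

theorem several {k : ℝ} (hk : 1 ≤ k) (hk4 : k < 4) {m : ℕ} {f : Fin m → ℝ → ℂ} {a b : Fin m → ℝ}
    (hf : ∀ j, ContDiff ℝ 1 (f j)) (hab : ∀ j, 0 ≤ a j ∧ a j < b j) {Φ : (Fin m → ℂ) → ℝ} (hc : Continuous Φ)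
    (hh : ∀ (l : ℂ) (z : Fin m → ℂ), Φ (fun j => l * z j) = ‖l‖ ^ k * Φ z) :
    ∃ G : ℝ, GaussianFactor k f a b Φ G ∧ UniformLimit (fun T h => h ^ (k ^ 2 / 4) *
      (T⁻¹ * ∫ t in (0:ℝ)..T, Φ (fun j => localMean (f j) (a j) (b j) h t))) (arithmeticFactor (k / 2) * G) := by
  obtain ⟨G, ⟨ρ, h1, h2⟩, h3⟩ := Pool.Agent.H60.LM.expl hk hk4 hf (fun j => (hab j).1) (fun j => (hab j).2) hc hh
  refine ⟨G, ⟨ρ, h1, h2⟩, ?_⟩
  simp only [localMean_eq]
  exact h3

theorem one {k : ℝ} (hk : 1 ≤ k) (hk4 : k < 4) {f : ℝ → ℂ} {a b : ℝ} (hf : ContDiff ℝ 1 f) (ha : 0 ≤ a) (hab : a < b)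
    (hne : ∃ u ∈ Set.Icc a b, f u ≠ 0) : ∃ G : ℝ, 0 < G ∧
      GaussianFactor k (fun _ : Fin 1 => f) (fun _ => a) (fun _ => b) (fun z => ‖z 0‖ ^ k) G ∧
      UniformLimit (fun T h => h ^ (k ^ 2 / 4) *
        (T⁻¹ * ∫ t in (0:ℝ)..T, ‖localMean f a b h t‖ ^ k)) (arithmeticFactor (k / 2) * G) := by
  obtain ⟨G, hG, hC⟩ := several hk hk4 (m := 1) (f := fun _ => f) (a := fun _ => a) (b := fun _ => b) (fun _ => hf)
    (fun _ => ⟨ha, hab⟩) (Φ := fun z => ‖z 0‖ ^ k)
    ((continuous_apply 0).norm.rpow_const fun _ => Or.inr (by linarith))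
    (fun l z => by rw [norm_mul, Real.mul_rpow (norm_nonneg _) (norm_nonneg _)])
  refine ⟨G, ?_, hG, hC⟩
  have haF : 0 < arithmeticFactor (k / 2) := Pool.Agent.H306R2.aF_pos (by linarith)
  obtain ⟨c, hc, hpos⟩ := Pool.Agent.H60.LM.pos_all hk hk4 ha hab hf.continuous hne
  -- a window function
  obtain ⟨a1, a2⟩ := Pool.Agent.H60.LM.h0_seq
  by_contra hneg
  push Not at hneg
  have hneg' : arithmeticFactor (k / 2) * G ≤ 0 := mul_nonpos_of_nonneg_of_nonpos haF.le hneg
  obtain ⟨c₁, T₀, hc₁, hu⟩ := hC (c / 2) (by positivity)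
  obtain ⟨T, t1, t2, t3, t4⟩ := ((hpos _ a1 a2).and ((eventually_ge_atTop (max T₀ 3)).and
    ((a2.eventually_ge_atTop c₁).and (a1.eventually (gt_mem_nhds (show (0 : ℝ) < 1 / c₁ by positivity)))))).exists
  have hT3 : 3 ≤ T := (le_max_right _ _).trans t2
  have hlog : 0 < Real.log T := Real.log_pos (by linarith)
  have h5 := hu T ((le_max_left _ _).trans t2) _ (by rw [div_le_iff₀ hlog]; exact t3) t4.le
  simp only [localMean_eq] at h5
  rw [← mul_assoc, ← div_eq_mul_inv] at h5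
  have h6 := (abs_le.1 h5).2
  linarith

/-- Let `1 ≤ k < 4` be real. (1) For every `C¹` weight `f` and `0 ≤ a < b` such that `f` does not vanish identically on
`[a, b]` there is `G > 0`, given by Gaussian integrals, such that
`h^(k²/4) (1/T) ∫_0^T |∫_a^b f(u) ζ(1/2 + i(t + hu)) du|^k dt → a(k/2) G` uniformly as `h → 0`, `h log T → ∞`. (2) If
`∫_a^b f ≠ 0`, then for large `T` and all `0 < h ≤ h₀` the `k`-th moment is of the order `min(1/h, log T)^(k²/4)`.
(3) The same as (1), with a real constant `G`, for every continuous function, homogeneous of degree `k`, of several such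
means. -/
theorem result (k : ℝ) (hk : 1 ≤ k) (hk4 : k < 4) : 0 < arithmeticFactor (k / 2) ∧
    (∀ (f : ℝ → ℂ) (a b : ℝ), ContDiff ℝ 1 f → 0 ≤ a → a < b → (∃ u ∈ Set.Icc a b, f u ≠ 0) →
      ∃ G : ℝ, 0 < G ∧ GaussianFactor k (fun _ : Fin 1 => f) (fun _ => a) (fun _ => b) (fun z => ‖z 0‖ ^ k) G ∧
        UniformLimit (fun T h => h ^ (k ^ 2 / 4) * (T⁻¹ * ∫ t in (0:ℝ)..T, ‖localMean f a b h t‖ ^ k))
          (arithmeticFactor (k / 2) * G)) ∧
    (∀ (f : ℝ → ℂ) (a b : ℝ), ContDiff ℝ 1 f → 0 ≤ a → a < b → ∫ u in a..b, f u ≠ 0 →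
      ∃ c C h₀ T₀ : ℝ, 0 < c ∧ 0 < C ∧ 0 < h₀ ∧ ∀ T : ℝ, T₀ ≤ T → ∀ h : ℝ, 0 < h → h ≤ h₀ →
        c * min (1 / h) (Real.log T) ^ (k ^ 2 / 4) ≤ T⁻¹ * ∫ t in (0:ℝ)..T, ‖localMean f a b h t‖ ^ k ∧
        T⁻¹ * ∫ t in (0:ℝ)..T, ‖localMean f a b h t‖ ^ k ≤ C * min (1 / h) (Real.log T) ^ (k ^ 2 / 4)) ∧
    (∀ (m : ℕ) (f : Fin m → ℝ → ℂ) (a b : Fin m → ℝ), (∀ j, ContDiff ℝ 1 (f j)) → (∀ j, 0 ≤ a j ∧ a j < b j) →
      ∀ Φ : (Fin m → ℂ) → ℝ, Continuous Φ → (∀ (l : ℂ) (z : Fin m → ℂ), Φ (fun j => l * z j) = ‖l‖ ^ k * Φ z) →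
      ∃ G : ℝ, GaussianFactor k f a b Φ G ∧ UniformLimit (fun T h => h ^ (k ^ 2 / 4) *
        (T⁻¹ * ∫ t in (0:ℝ)..T, Φ (fun j => localMean (f j) (a j) (b j) h t))) (arithmeticFactor (k / 2) * G)) := by
  refine ⟨Pool.Agent.H306R2.aF_pos (by linarith), fun _ _ _ hf ha hab hne => one hk hk4 hf ha hab hne, ?_,
    fun _ _ _ _ hf hab _ hc hh => several hk hk4 hf hab hc hh⟩
  intro f a b hf ha hab hI
  have hne : ∃ u ∈ Set.Icc a b, f u ≠ 0 := by
    by_contra hcon
    push Not at hcon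
    apply hI
    rw [intervalIntegral.integral_congr (g := fun _ => (0 : ℂ)) fun u hu => hcon u (by rwa [Set.uIcc_of_le hab.le] at hu)]
    simp
  obtain ⟨G, hG, -, hU⟩ := one hk hk4 hf ha hab hne
  have haF : 0 < arithmeticFactor (k / 2) := Pool.Agent.H306R2.aF_pos (by linarith)
  simp only [localMean_eq] at hU ⊢
  exact Pool.Agent.H60.LM.order hk hk4 hf.continuous ha hab hI (mul_pos haF hG) hU

end Pool.Agent.Results.MP_91b7ff_nt.LocalMeans
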