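import Pool.Agent.H7.NR.G

set_option autoImplicit false

/-!
# MP_91b7ff_nt: the third moment, and all rational moments of order at most four, near the critical line

Unconditionally, the moment of order `k = 2p/n ≤ 4` of zeta on the line `Re s = 1/2 + c / log T`
is given by the diagonal prediction up to an error which is exponentially small in `c`, uniformly
in `c`: for all `c > 0` and all large `T` the mean of `|ζ(1/2 + c/log T + it)|^k` over `[0, T]`,
divided by `a(k/2) (log T)^(k²/4) / Γ(1 + k²/4)`, differs from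
`F(c) = (k²/4) ∫_0^1 u^(k²/4 - 1) e^(-2cu) du` by at most `C e^(-2c/n)`. For the integers
`k = 1, 2, 3, 4` the error is `C e^(-c)`; the new case is `k = 3`, and more generally `p ≥ 2`.

Proof. `ζ^p` is compared with the `n`-th power of the truncation of the Dirichlet series of
`ζ^(p/n)` at `N = T / (log T)^4`. For the difference `K`, multiplied by an analytic Gaussian window
of width `T / (log T)^2` centred at `τ`, the integrals of `|K|^(2/n)` over vertical lines are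
log-convex in the real part. A line far to the right gives the factor `e^(-2c/n)` against the
critical line. The comparison is then integrated over the centre `τ`, so that only an upper bound
of the right order for the average over `[0, T]` on the critical line is needed.
-/

namespace Pool.Agent.Results.MP_91b7ff_nt.NearTheLine

open Filter MeasureTheory Set
open Pool.Agent.H7.NR

/-- `a(κ) / Γ(1 + κ²)`, where
`a(κ) = ∏_p (1 - 1/p)^{κ²} ∑_m (Γ(κ + m) / (Γ(κ) m!))² p^{-m}` -/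
noncomputable def b (κ : ℝ) : ℝ :=
  (∏' p : Nat.Primes, ((1 - 1 / (p : ℝ)) ^ (κ ^ 2) *
    ∑' m : ℕ, (Real.Gamma (κ + m) / (Real.Gamma κ * (m.factorial : ℝ))) ^ 2 *
      (1 / (p : ℝ)) ^ m)) / Real.Gamma (1 + κ ^ 2)

/-- `F(c) = κ² ∫_0^1 u^{κ² - 1} e^{-2cu} du` -/
noncomputable def F (κ c : ℝ) : ℝ :=
  κ ^ 2 * ∫ u in (0 : ℝ)..1, u ^ (κ ^ 2 - 1) * Real.exp (-(2 * c * u))

/-- the mean value of `|ζ(σ + it)|^k` over `0 ≤ t ≤ T` -/
noncomputable def mean (k σ T : ℝ) : ℝ :=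
  1 / T * ∫ t in (0 : ℝ)..T, ‖riemannZeta (σ + t * Complex.I)‖ ^ k

lemma lc_gamma (κ : ℝ) (hκ : 0 < κ) (m : ℕ) :
    Pool.Agent.H306R2.lc κ m = Real.Gamma (κ + m) / (Real.Gamma κ * (m.factorial : ℝ)) := by
  have hG : Real.Gamma κ ≠ 0 := (Real.Gamma_pos_of_pos hκ).ne'
  unfold Pool.Agent.H306R2.lc
  induction m with
  | zero => simp [hG]
  | succ m ih =>
    rw [Finset.prod_range_succ, ih]
    have h1 : κ + ((m + 1 : ℕ) : ℝ) = (κ + m) + 1 := by push_cast; ring
    have h2 : κ + (m : ℝ) ≠ 0 := by positivity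
    rw [h1, Real.Gamma_add_one h2, Nat.factorial_succ]
    have h3 : (m.factorial : ℝ) ≠ 0 := by exact_mod_cast m.factorial_ne_zero
    have h4 : (m : ℝ) + 1 ≠ 0 := by positivity
    push_cast
    field_simp

lemma b_eq {κ : ℝ} (hκ : 0 < κ) : Pool.Agent.H306R2.aF κ / Real.Gamma (κ ^ 2 + 1) = b κ := by
  unfold b Pool.Agent.H306R2.aF
  rw [add_comm]
  congr 1
  refine tprod_congr fun p => ?_
  congr 1
  refine tsum_congr fun m => ?_
  rw [lc_gamma _ hκ]

lemma b_pos {κ : ℝ} (hκ : 0 < κ) : 0 < b κ := by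
  rw [← b_eq hκ]
  have h1 := Pool.Agent.H306R2.aF_pos hκ
  have h2 : 0 < Real.Gamma (κ ^ 2 + 1) := Real.Gamma_pos_of_pos (by positivity)
  positivity

open Pool.Agent.H306R2 Pool.Agent.Q255.FM in
lemma F_eq {κ : ℝ} (hκ : 0 < κ) (c : ℝ) : Real.Gamma (κ ^ 2 + 1) * Ph κ c = F κ c := by
  set m : ℝ := κ ^ 2 with hm
  have hm0 : 0 < m := by positivity
  have hG := Real.Gamma_pos_of_pos hm0
  unfold Ph F
  rw [← hm, Real.Gamma_add_one hm0.ne', mul_assoc]
  congr 1
  have e : ∀ u : ℝ, gd m u * (ct 1 u * Real.exp (-(2 * c * u))) =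
      (Ioc (0 : ℝ) 1).indicator (fun u => (1 / Real.Gamma m) * (u ^ (m - 1) * Real.exp (-(2 * c * u)))) u := by
    intro u
    unfold gd ct
    by_cases h1 : 0 < u <;> by_cases h2 : u ≤ 1 <;> simp [h1, h2, indicator]
    field_simp
  simp_rw [e]
  rw [integral_indicator measurableSet_Ioc, integral_const_mul,
    intervalIntegral.integral_of_le (by norm_num)]
  field_simp

lemma main (n p : ℕ) (hn : 2 ≤ n) (hp : 1 ≤ p) (hk : p ≤ 2 * n) :
    ∃ C : ℝ, 0 < C ∧ ∀ c : ℝ, 0 < c → ∀ᶠ T : ℝ in atTop,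
      |mean (2 * (p : ℝ) / (n : ℝ)) (1 / 2 + c / Real.log T) T /
        (b ((p : ℝ) / n) * Real.log T ^ (((p : ℝ) / n) ^ 2)) - F ((p : ℝ) / n) c| ≤
        C * Real.exp (-(2 * c / n)) := by
  have hn0 : (0 : ℝ) < n := by exact_mod_cast (by omega : 0 < n)
  have hp0 : (0 : ℝ) < p := by exact_mod_cast hp
  have hk' : 2 * (p : ℝ) / (n : ℝ) ≤ 4 := by
    rw [div_le_iff₀ hn0]
    have : (p : ℝ) ≤ 2 * n := by exact_mod_cast hk
    linarith
  obtain ⟨C, hC, h⟩ := near hn hp hk'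
  have hκ : 0 < (p : ℝ) / n := by positivity
  set κ : ℝ := (p : ℝ) / n with hκdef
  have hb := b_pos hκ
  have hkk : kk n p = κ := rfl
  have hG : 0 < Real.Gamma (κ ^ 2 + 1) := Real.Gamma_pos_of_pos (by positivity)
  have hAF : Pool.Agent.H306R2.aF κ = b κ * Real.Gamma (κ ^ 2 + 1) := by
    rw [← b_eq hκ]
    field_simp
  refine ⟨C / b κ, by positivity, fun c hc => ?_⟩
  filter_upwards [h c hc, eventually_gt_atTop 1] with T hT hT1
  have hT0 : 0 < T := by linarith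
  have hl : 0 < Real.log T := Real.log_pos hT1
  have hL : 0 < Real.log T ^ (κ ^ 2) := Real.rpow_pos_of_pos hl _
  have hWW : WW n p T = Real.log T ^ (κ ^ 2) := rfl
  have hI : ∫ t in (0 : ℝ)..T, ZX n p (1 / 2 + c / Real.log T) t =
      ∫ t in (0 : ℝ)..T, ‖riemannZeta (((1 / 2 + c / Real.log T : ℝ) : ℂ) + t * Complex.I)‖ ^
        (2 * (p : ℝ) / (n : ℝ)) := rfl
  rw [hI, hWW, hkk, hAF, mul_assoc (b κ), F_eq hκ] at hT
  unfold mean
  set I := ∫ t in (0 : ℝ)..T, ‖riemannZeta (((1 / 2 + c / Real.log T : ℝ) : ℂ) + t * Complex.I)‖ ^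
        (2 * (p : ℝ) / (n : ℝ)) with hIdef
  have e0 : -(2 / (n : ℝ) * c) = -(2 * c / n) := by ring
  rw [e0] at hT
  set E := Real.exp (-(2 * c / n)) with hE
  have hden : 0 < b κ * (T * Real.log T ^ (κ ^ 2)) := by positivity
  have e1 : 1 / T * I / (b κ * Real.log T ^ (κ ^ 2)) = I / (b κ * (T * Real.log T ^ (κ ^ 2))) := by
    field_simp
  rw [e1, abs_le]
  obtain ⟨h1, h2⟩ := hT
  constructor
  · have : F κ c - C / b κ * E ≤ I / (b κ * (T * Real.log T ^ (κ ^ 2))) := by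
      rw [le_div_iff₀ hden]
      refine le_trans (le_of_eq ?_) h1
      field_simp
    linarith
  · have : I / (b κ * (T * Real.log T ^ (κ ^ 2))) ≤ F κ c + C / b κ * E := by
      rw [div_le_iff₀ hden]
      refine le_trans h2 (le_of_eq ?_)
      field_simp
    linarith

/-- the moments of all rational orders `k = 2p/n ≤ 4`, in particular of the integral orders
`k ≤ 4`, near the critical line -/
theorem result :
    (∀ n p : ℕ, 2 ≤ n → 1 ≤ p → p ≤ 2 * n → 0 < b ((p : ℝ) / n) ∧ ∃ C : ℝ, 0 < C ∧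
      ∀ c : ℝ, 0 < c → ∀ᶠ T : ℝ in atTop,
        |mean (2 * (p : ℝ) / (n : ℝ)) (1 / 2 + c / Real.log T) T /
          (b ((p : ℝ) / n) * Real.log T ^ (((p : ℝ) / n) ^ 2)) - F ((p : ℝ) / n) c| ≤
          C * Real.exp (-(2 * c / n))) ∧
    (∀ k : ℕ, 1 ≤ k → k ≤ 4 → 0 < b ((k : ℝ) / 2) ∧ ∃ C : ℝ, 0 < C ∧
      ∀ c : ℝ, 0 < c → ∀ᶠ T : ℝ in atTop,
        |mean k (1 / 2 + c / Real.log T) T / (b ((k : ℝ) / 2) * Real.log T ^ ((k : ℝ) ^ 2 / 4)) -
          F ((k : ℝ) / 2) c| ≤ C * Real.exp (-c)) := by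
  refine ⟨fun n p hn hp hk => ⟨?_, main n p hn hp hk⟩, fun k hk hk4 => ⟨?_, ?_⟩⟩
  · have hn0 : (0 : ℝ) < n := by exact_mod_cast (by omega : 0 < n)
    have hp0 : (0 : ℝ) < p := by exact_mod_cast hp
    exact b_pos (by positivity)
  · have hp0 : (0 : ℝ) < k := by exact_mod_cast hk
    exact b_pos (by positivity)
  · obtain ⟨C, hC, h⟩ := main 2 k le_rfl hk (by omega)
    refine ⟨C, hC, fun c hc => ?_⟩
    filter_upwards [h c hc] with T hT
    have e1 : 2 * (k : ℝ) / ((2 : ℕ) : ℝ) = k := by push_cast; ring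
    have e2 : 2 * c / ((2 : ℕ) : ℝ) = c := by push_cast; ring
    have e3 : ((k : ℝ) / 2) ^ 2 = (k : ℝ) ^ 2 / 4 := by ring
    rw [e1, e2] at hT
    push_cast at hT
    rw [e3] at hT
    exact hT

end Pool.Agent.Results.MP_91b7ff_nt.NearTheLine
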