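import Pool.Agent.H7.PU.U7

set_option autoImplicit false

/-!
# MP_91b7ff_nt: all moments of the partial sums of zeta and of Dirichlet L-functions

For every real `k > 0`, in particular for every positive integer `k`, there is one constant
`γ_k > 0` such that for zeta and for every Dirichlet L-function `L(s, χ)` (more generally for the
Dirichlet series of every completely multiplicative `f` with `|f(p)| = 1` for all primes `p`
outside a finite set and `f(p) = 0` in that set) the `k`-th pseudomoments (mean values over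
`[0, T]`, `T → ∞`, of the `k`-th power of the modulus of the partial sum of length `N` on the
critical line) are asymptotic to `γ_k a(k/2, f) (log N)^(k²/4)`. Here `a` is the arithmetic factor
of the Keating-Snaith conjecture: the product over the primes of
`(1 - 1/p)^(κ²) ∑_m (Γ(κ + m) / (Γ(κ) m!))² p^(-m)`, without the sum over `m` if `f(p) = 0`.
So the constants split into an arithmetic factor and a universal factor, as conjectured by Keating
and Snaith for the moments of zeta itself. For zeta and even `k` this is a theorem of Conrey and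
Gamburd; for other `k` only the order of magnitude (Bondarenko, Heap and Seip for `k > 1`, Gerspach
for `k ≤ 1`) was known.

Proof. The mean values are moments of sums of a Steinhaus random multiplicative function. For
`k > 1` the sharp cut is replaced by a smooth one by the projection theorem of M. Riesz. For
`k ≤ 1` projections are not bounded; there the sum is compared with the smooth sums with weights
`exp (-(n/N)^η)` one scale after another: the error at one scale is estimated by its second moment
conditional on the primes below `exp (1/η)`, with sieve bounds for sums over integers without small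
prime factors and a Mellin transform on a short contour. In both cases the smooth sums are
approximated by combinations of the Euler products at the points `1/2 + j / log N`, and the
laws of the ratios of these Euler products, tilted by the `k`-th power of one of them, converge.
Positivity of the constant for `k ≤ 1` follows from subharmonicity in the large primes.
The same two methods show that replacing `N` by `N/p` changes the sum by a negligible amount. Hence
removing the multiples of `p` from the sum amounts to dividing it by `(1 - f(p) p^(-1/2))⁻¹`, which is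
independent of the sum that remains, and whose `k`-th moment is the sum over `m` above.
-/

namespace Pool.Agent.Results.MP_91b7ff_nt.PartialSumMoments

open Filter MeasureTheory Topology

/-- the partial sum of length `N` of the Dirichlet series of `f` at the point `1/2 + it` -/
noncomputable def partialSum (f : ℕ → ℂ) (N : ℕ) (t : ℝ) : ℂ :=
  ∑ n ∈ Finset.Icc 1 N, f n * (n : ℂ) ^ (-(1 / 2 + t * Complex.I) : ℂ)

open Classical in
/-- the arithmetic factor
`∏_p (1 - 1/p)^{κ²} ∑_m (Γ(κ + m) / (Γ(κ) m!))² p^{-m}`, with the sum over `m` replaced by `1` at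
the primes with `f(p) = 0` -/
noncomputable def a (κ : ℝ) (f : ℕ → ℂ) : ℝ :=
  ∏' p : Nat.Primes, ((1 - 1 / ((p : ℕ) : ℝ)) ^ (κ ^ 2) *
    if f (p : ℕ) = 0 then 1 else
      ∑' m : ℕ, (Real.Gamma (κ + m) / (Real.Gamma κ * (m.factorial : ℝ))) ^ 2 *
        (1 / ((p : ℕ) : ℝ)) ^ m)

/-- The means over `[0, T]` of `|∑_{n ≤ N} f(n) n^(-1/2-it)|^k` tend, as `T → ∞`, to numbers `Ψ N`
with `Ψ N ∼ c (log N)^(k²/4)`. -/
def MomentAsymptotics (k : ℝ) (f : ℕ → ℂ) (c : ℝ) : Prop :=
  ∃ Ψ : ℕ → ℝ,
    (∀ N : ℕ, Tendsto (fun T : ℝ => 1 / T * ∫ t in (0 : ℝ)..T, ‖partialSum f N t‖ ^ k) atTop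
      (𝓝 (Ψ N))) ∧
    Tendsto (fun N : ℕ => Ψ N / Real.log N ^ (k ^ 2 / 4)) atTop (𝓝 c)

lemma lc_gamma (κ : ℝ) (hκ : 0 < κ) (m : ℕ) :
    Pool.Agent.H306R2.lc κ m = Real.Gamma (κ + m) / (Real.Gamma κ * (m.factorial : ℝ)) := by
  have hG : Real.Gamma κ ≠ 0 := (Real.Gamma_pos_of_pos hκ).ne'
  unfold Pool.Agent.H306R2.lc
  induction m with
  | zero => simp [hG]
  | succ m ih =>
    rw [Finset.prod_range_succ, ih]
    have h1 : κ + ((m + 1 : ℕ) : ℝ) = (κ + m) + 1 := by push_cast; ring
    have h2 : κ + (m : ℝ) ≠ 0 := by positivity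
    rw [h1, Real.Gamma_add_one h2, Nat.factorial_succ]
    have h3 : (m.factorial : ℝ) ≠ 0 := by exact_mod_cast m.factorial_ne_zero
    have h4 : (m : ℝ) + 1 ≠ 0 := by positivity
    push_cast
    field_simp

lemma a_eq {κ : ℝ} (hκ : 0 < κ) (f : ℕ → ℂ) (S : Finset ℕ)
    (hS : ∀ p : ℕ, p.Prime → (p ∈ S ↔ f p = 0)) : a κ f = Pool.Agent.H7.PU.aS κ S := by
  unfold a Pool.Agent.H7.PU.aS
  refine tprod_congr fun p => ?_
  congr 1
  by_cases h : (p : ℕ) ∈ S
  · rw [if_pos ((hS p p.2).1 h), if_pos h]
  · rw [if_neg (fun h' => h ((hS p p.2).2 h')), if_neg h]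
    exact tsum_congr fun m => by rw [lc_gamma κ hκ]

/-- **Theorem.** For every real `k > 0` there is `γ > 0` such that
(1) for every completely multiplicative `f` with `|f(p)| = 1` for all primes outside a finite set
and `f(p) = 0` in this set, and
(2) for every Dirichlet character (3) and for zeta,
the arithmetic factor is positive and the means of the `k`-th powers of the partial sums on the
critical line are asymptotic to `γ a(k/2, f) (log N)^(k²/4)`. -/
theorem result (k : ℝ) (hk : 0 < k) : ∃ γ : ℝ, 0 < γ ∧
    (∀ f : ℕ →* ℂ, (∀ p : ℕ, p.Prime → f p = 0 ∨ ‖f p‖ = 1) →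
      {p : ℕ | p.Prime ∧ f p = 0}.Finite →
      0 < a (k / 2) f ∧ MomentAsymptotics k f (γ * a (k / 2) f)) ∧
    (∀ (q : ℕ) [NeZero q] (χ : DirichletCharacter ℂ q),
      0 < a (k / 2) (fun n => χ n) ∧
      MomentAsymptotics k (fun n => χ n) (γ * a (k / 2) (fun n => χ n))) ∧
    (0 < a (k / 2) (fun _ => 1) ∧
      MomentAsymptotics k (fun _ => 1) (γ * a (k / 2) (fun _ => 1))) := by
  obtain ⟨γ, hγ, H⟩ := Pool.Agent.H7.PU.main_f hk
  have hk2 : 0 < k / 2 := by positivity
  have gen : ∀ f : ℕ →* ℂ, (∀ p : ℕ, p.Prime → f p = 0 ∨ ‖f p‖ = 1) →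
      {p : ℕ | p.Prime ∧ f p = 0}.Finite →
      0 < a (k / 2) f ∧ MomentAsymptotics k f (γ * a (k / 2) f) := by
    intro f hf hfin
    set S : Finset ℕ := hfin.toFinset with hS
    have hmem : ∀ p : ℕ, p ∈ S ↔ p.Prime ∧ f p = 0 := fun p => by
      rw [hS, Set.Finite.mem_toFinset]
      rfl
    have hSp : ∀ p ∈ S, p.Prime := fun p hp => ((hmem p).1 hp).1
    have ha : a (k / 2) f = Pool.Agent.H7.PU.aS (k / 2) S :=
      a_eq hk2 f S fun p hp => by rw [hmem]; exact ⟨fun h => h.2, fun h => ⟨hp, h⟩⟩
    have hpos : 0 < a (k / 2) f := by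
      rw [ha, Pool.Agent.H7.PU.aS_eq hk S hSp]
      exact mul_pos (Pool.Agent.H306R2.aF_pos hk2)
        (Finset.prod_pos fun p hp => inv_pos.2 (Pool.Agent.H7.PU.lf_pos k p (hSp p hp)))
    refine ⟨hpos, fun N => Pool.Agent.H7.PL.mo k (Pool.Agent.H7.PU.SF f N),
      fun N => Pool.Agent.H7.PU.mean_DF hk f N, ?_⟩
    rw [ha]
    exact H S f hSp (fun p hp hpS => (hf p hp).resolve_left fun h => hpS ((hmem p).2 ⟨hp, h⟩))
      (fun p hp => ((hmem p).1 hp).2)
  refine ⟨γ, hγ, gen, fun q _ χ => ?_, ?_⟩
  · -- Dirichlet characters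
    set f : ℕ →* ℂ := χ.toMonoidHom.comp (Nat.castRingHom (ZMod q)).toMonoidHom with hf
    have hfe : (f : ℕ → ℂ) = fun n : ℕ => χ n := rfl
    rw [← hfe]
    refine gen f (fun p _ => ?_) ?_
    · by_cases h : IsUnit (p : ZMod q)
      · exact Or.inr (by
          obtain ⟨u, hu⟩ := h
          have : f p = χ u := by rw [hu]; rfl
          rw [this]
          exact χ.unit_norm_eq_one u)
      · exact Or.inl (χ.map_nonunit h)
    · refine (q.primeFactors.finite_toSet).subset fun p hp => ?_
      obtain ⟨hp1, hp2⟩ := hp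
      rw [Finset.mem_coe, Nat.mem_primeFactors]
      refine ⟨hp1, ?_, NeZero.ne q⟩
      by_contra hd
      have hu : IsUnit (p : ZMod q) :=
        (ZMod.isUnit_iff_coprime p q).2 ((Nat.Prime.coprime_iff_not_dvd hp1).2 hd)
      have : χ (p : ZMod q) = 0 := hp2
      exact (hu.map χ).ne_zero this
  · -- zeta
    have hfe : ((1 : ℕ →* ℂ) : ℕ → ℂ) = fun _ => 1 := rfl
    rw [← hfe]
    refine gen 1 (fun p _ => Or.inr (by simp)) ?_
    have : {p : ℕ | p.Prime ∧ (1 : ℕ →* ℂ) p = 0} = ∅ := by
      ext p
      simp
    rw [this]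
    exact Set.finite_empty

end Pool.Agent.Results.MP_91b7ff_nt.PartialSumMoments
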