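import Pool.Agent.H7.PT.P15
import Pool.Agent.H7.PV.V10
import Pool.Agent.Results.MP_91b7ff_nt.PartialSumMoments

set_option autoImplicit false

/-!
# MP_91b7ff_nt: moments of the partial sums of length `T^θ`, uniformly in the length

Let `1 < k ≤ 4` be real (for instance `k = 3`). The mean over `0 ≤ t ≤ T` of
`|∑_{n ≤ N} n^(-1/2-it)|^k`, divided by `(log N)^(k²/4)`, is as close as we like to `γ_k a(k/2)`,
for all lengths `N ≤ T^θ`, as soon as `N` is large and `θ` is small: nothing has to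
be assumed about `T` beyond `T ≥ N^(1/θ)`. In particular it tends to `γ_k a(k/2)` whenever
`N = N(T)` tends to infinity with `log N(T) = o(log T)`. Here `a(k/2)` is the arithmetic factor of
the Keating-Snaith conjecture, and `γ_k` is the universal factor of the pseudomoments, the same for
zeta, all Dirichlet L-functions and the Dirichlet series of completely multiplicative `f` with
`|f(p)| = 1` or `0`, `f(p) = 0` for finitely many `p` (see PartialSumMoments in this folder).

For `1 ≤ k ≤ 4`, `k = 1` included, such an asymptotic formula holds for the `k`-th power of the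
modulus of every partial sum with a smooth cut-off, with a positive constant if the weight does not
vanish at `0`. Moreover it holds for every continuous function `Φ : ℂ^m → ℝ` with
`Φ(λz) = |λ|^k Φ(z)` of several weighted partial sums
`∑_{n ≤ N^(b_j)} P_j(log n / log N) n^(-1/2-i(t + u_j/log N))` of different lengths, with different
smooth weights `P_j`, and at different points, and of several values
`ζ(1/2 + c_j/log N + i(t + u_j/log N))`. In this sense the random process formed by the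
weighted partial sums and by the zeta-function at distance `1/log N` from the line has a limit
law with respect to the measures tilted by `k`-th powers.

For even `k` the case of one sum is the mean value theorem of Montgomery and Vaughan. For other `k`
the `k`-th power is not a polynomial, the Kronecker-Weyl theorem only gives the limit for fixed `N`,
and Dirichlet polynomials of length `T^θ` have just boundedly many moments that can be computed.

Proof. The sharp cut is treated by a version of the projection theorem of M. Riesz for mean values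
over intervals (which fails for `k = 1`); smooth sums of length `N` are approximated in the mean of
order `k` by linear combinations of the values of the zeta-function at the points
`1/2 + (1 + iu)/log N + it`; for these the sharp upper bound for moments of order `k ≤ 4` and the
joint limit law (tilted by the `k`-th power) are known.
-/

namespace Pool.Agent.Results.MP_91b7ff_nt.ShortPartialSums

open Filter MeasureTheory Topology
open scoped ContDiff

/-- the partial sum of length `N` of the Dirichlet series of `f` at the point `1/2 + it`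
(for zeta, `f = 1`) -/
noncomputable def partialSum (f : ℕ → ℂ) (N : ℕ) (t : ℝ) : ℂ :=
  ∑ n ∈ Finset.Icc 1 N, f n * (n : ℂ) ^ (-(1 / 2 + t * Complex.I) : ℂ)

/-- the weighted partial sum `∑_{n ≤ N^b} P (log n / log N) n^(-1/2-it)` -/
noncomputable def weightedSum (b : ℝ) (P : ℝ → ℂ) (N : ℕ) (t : ℝ) : ℂ :=
  ∑ n ∈ Finset.Icc 1 ⌊(N : ℝ) ^ b⌋₊, P (Real.log n / Real.log N) *
    (n : ℂ) ^ (-(1 / 2 + t * Complex.I) : ℂ)

/-- the value `ζ(1/2 + c/log N + it)` -/
noncomputable def zetaValue (c : ℝ) (N : ℕ) (t : ℝ) : ℂ :=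
  riemannZeta (1 / 2 + (c / Real.log N : ℝ) + t * Complex.I)

/-- The weight `P` is smooth; for `k = 1` it is required in addition that `P = 0` on `[b, ∞)`, that
is, that the cut at `N^b` is smooth. -/
def Weight (k b : ℝ) (P : ℝ → ℂ) : Prop :=
  0 < b ∧ ContDiff ℝ ∞ P ∧ (1 < k ∨ ∀ x, b ≤ x → P x = 0)

open Classical in
/-- the arithmetic factor
`∏_p (1 - 1/p)^{κ²} ∑_m (Γ(κ + m) / (Γ(κ) m!))² p^{-m}`, with the sum over `m` replaced by `1` at
the primes with `f(p) = 0` -/
noncomputable def a (κ : ℝ) (f : ℕ → ℂ) : ℝ :=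
  ∏' p : Nat.Primes, ((1 - 1 / ((p : ℕ) : ℝ)) ^ (κ ^ 2) *
    if f (p : ℕ) = 0 then 1 else
      ∑' m : ℕ, (Real.Gamma (κ + m) / (Real.Gamma κ * (m.factorial : ℝ))) ^ 2 *
        (1 / ((p : ℕ) : ℝ)) ^ m)

/-- The means over `[0, T]` of `|∑_{n ≤ N} f(n) n^(-1/2-it)|^k` tend, as `T → ∞`, to numbers `Ψ N`
with `Ψ N ∼ c (log N)^(k²/4)`. -/
def IteratedAsymptotics (k : ℝ) (f : ℕ → ℂ) (c : ℝ) : Prop :=
  ∃ Ψ : ℕ → ℝ,
    (∀ N : ℕ, Tendsto (fun T : ℝ => 1 / T * ∫ t in (0 : ℝ)..T, ‖partialSum f N t‖ ^ k) atTop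
      (𝓝 (Ψ N))) ∧
    Tendsto (fun N : ℕ => Ψ N / Real.log N ^ (k ^ 2 / 4)) atTop (𝓝 c)

/-- For every `ε > 0` there are `θ > 0` and `N₀` such that for all `N ≥ N₀` and all `T ≥ N^(1/θ)`
(so `N ≤ T^θ`) the mean over `0 ≤ t ≤ T` of `G N t`, divided by `(log N)^(k²/4)`, differs from `c`
by at most `ε`. -/
def UniformAsymptotics (k : ℝ) (G : ℕ → ℝ → ℝ) (c : ℝ) : Prop :=
  ∀ ε : ℝ, 0 < ε → ∃ θ : ℝ, 0 < θ ∧ ∃ N₀ : ℕ, ∀ N : ℕ, N₀ ≤ N → ∀ T : ℝ, (N : ℝ) ^ (1 / θ) ≤ T →
    |(1 / T * ∫ t in (0 : ℝ)..T, G N t) / Real.log N ^ (k ^ 2 / 4) - c| ≤ ε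

lemma partialSum_one (N : ℕ) (t : ℝ) :
    partialSum (fun _ => 1) N t = Pool.Agent.H7.PM.DN N t := by
  unfold partialSum Pool.Agent.H7.PM.DN
  exact Finset.sum_congr rfl fun n _ => one_mul _

/-- **Theorem.** Let `1 ≤ k ≤ 4`.
(A) There is `γ > 0` such that
(A1) for every completely multiplicative `f` with `|f(p)| = 1` for all primes outside a finite set
and `f(p) = 0` in this set, the means of the `k`-th powers of the partial sums are asymptotic (first
`T → ∞`, then `N → ∞`) to `γ a(k/2, f) (log N)^(k²/4)`, with `a(k/2, f) > 0`, and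
(A2) for `f = 1` and `k > 1` this holds with the same constant uniformly for all `T ≥ N^(1/θ)`, up
to an error that is small if `θ` is small and `N` is large.
(B) If `k > 1`, or if `k = 1` and the cut-off is smooth, the mean of the `k`-th power of
`|∑_{n ≤ N^b} P(log n / log N) n^(-1/2-it)|`, `P` smooth, `P(0) ≠ 0`, is asymptotic to
`c (log N)^(k²/4)` with `c > 0`, in the same uniform sense.
(C) For every continuous `Φ : ℂ^m → ℝ` with `Φ(λz) = |λ|^k Φ(z)` the mean of `Φ` at a vector whose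
components are sums over `n ≤ N^b` of `P(log n / log N) n^(-1/2-i(t + u/log N))` (with `b`, `P` as
in (B), `P(0) = 0` allowed, `u` real) or values `ζ(1/2 + c'/log N + i(t + u/log N))` (`c' > 0`) is
asymptotic to `c (log N)^(k²/4)` with some real `c`, in the same uniform sense. Here `b`, `P`, `u`
and `c'` may be different for different components. -/
theorem result (k : ℝ) (hk : 1 ≤ k) (hk4 : k ≤ 4) :
    (∃ γ : ℝ, 0 < γ ∧
      (∀ f : ℕ →* ℂ, (∀ p : ℕ, p.Prime → f p = 0 ∨ ‖f p‖ = 1) →
        {p : ℕ | p.Prime ∧ f p = 0}.Finite →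
        0 < a (k / 2) f ∧ IteratedAsymptotics k f (γ * a (k / 2) f)) ∧
      0 < a (k / 2) (fun _ => 1) ∧
      (1 < k → UniformAsymptotics k (fun N t => ‖partialSum (fun _ => 1) N t‖ ^ k)
        (γ * a (k / 2) (fun _ => 1)))) ∧
    (∀ (b : ℝ) (P : ℝ → ℂ), Weight k b P → P 0 ≠ 0 →
      ∃ c : ℝ, 0 < c ∧ UniformAsymptotics k (fun N t => ‖weightedSum b P N t‖ ^ k) c) ∧
    ∀ (m : ℕ) (X : Fin m → ℕ → ℝ → ℂ) (u : Fin m → ℝ),
      (∀ j, (∃ (b : ℝ) (P : ℝ → ℂ), Weight k b P ∧ X j = weightedSum b P) ∨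
        ∃ c : ℝ, 0 < c ∧ X j = zetaValue c) →
      ∀ Φ : (Fin m → ℂ) → ℝ, Continuous Φ →
        (∀ (l : ℂ) (z : Fin m → ℂ), Φ (fun j => l * z j) = ‖l‖ ^ k * Φ z) →
        ∃ c : ℝ, UniformAsymptotics k (fun N t => Φ fun j => X j N (t + u j / Real.log N)) c := by
  refine ⟨?_, ?_, ?_⟩
  · obtain ⟨γ, hγ, H, -, h1, h2⟩ := PartialSumMoments.result k (by linarith)
    refine ⟨γ, hγ, H, h1, fun hk1 => ?_⟩
    obtain ⟨Ψ, h3, h4⟩ := h2
    have hL : Pool.Agent.H7.PU.Lm k (Pool.Agent.H7.PU.SF (1 : ℕ →* ℂ))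
        (γ * a (k / 2) (fun _ => 1)) := by
      have e : ∀ N, Ψ N = Pool.Agent.H7.PL.mo k (Pool.Agent.H7.PU.SF (1 : ℕ →* ℂ) N) := fun N =>
        tendsto_nhds_unique (h3 N)
          (Pool.Agent.H7.PU.mean_DF (by linarith : 0 < k) (1 : ℕ →* ℂ) N)
      unfold Pool.Agent.H7.PU.Lm
      refine h4.congr fun N => ?_
      rw [e]
    have h5 := Pool.Agent.H7.PT.main_const hk1 hk4 hL
    intro ε hε
    obtain ⟨θ, hθ, N0, h6⟩ := h5 ε hε
    refine ⟨θ, hθ, N0, fun N hN T hT => ?_⟩
    have h7 := h6 N hN T hT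
    unfold Pool.Agent.H7.PT.mn at h7
    simp_rw [partialSum_one]
    exact h7
  · rintro b P ⟨hb, hP, hPb⟩ hP0
    exact Pool.Agent.H7.PV.wsum_pos hk hk4 hb hP hPb hP0
  · intro m X u hX Φ hc hh
    refine Pool.Agent.H7.PV.model_unif hk hk4 X (fun j => ?_) u hc hh
    rcases hX j with ⟨b, P, ⟨hb, hP, hPb⟩, h⟩ | ⟨c, hc, h⟩
    · exact Or.inl ⟨b, P, hb, hP, hPb, h⟩
    · exact Or.inr ⟨c, hc, h⟩

end Pool.Agent.Results.MP_91b7ff_nt.ShortPartialSums
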